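import Pool.Agent.Q171.KS.Inv

/-!
# The lower bound `k` on the path with `k + 1` points
-/

namespace Q171KS

open Finset

variable {M : Type*} [PseudoMetricSpace M] {k : ℕ}

/-- `p 0, …, p k` is an isometric copy of the path with `k + 1` points. -/
def IsPath (k : ℕ) (p : ℕ → M) : Prop :=
  ∀ a b, a ≤ k → b ≤ k → dist (p a) (p b) = ((dz a b : ℤ) : ℝ)

lemma dz_comm (a b : ℕ) : dz a b = dz b a := by unfold dz; omega

lemma dz_pos {a b : ℕ} (h : a ≠ b) : 1 ≤ dz a b := by unfold dz; omega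

lemma dz_nonneg (a b : ℕ) : 0 ≤ dz a b := by unfold dz; omega

lemma IsPath.inj {p : ℕ → M} (hp : IsPath k p) :
    ∀ a b, a ≤ k → b ≤ k → p a = p b → a = b := by
  intro a b ha hb h
  by_contra hne
  have h1 := hp a b ha hb
  rw [h, dist_self] at h1
  have h2 := dz_pos hne
  have h3 : dz a b = 0 := by exact_mod_cast h1.symm
  omega

/-- The offline costs are at most `w`. -/
def Off (p : ℕ → M) (s₀ : State M k) (ρ : List M) (r : ℕ) (w : ℕ → ℤ) : Prop :=
  ∀ y, y ≤ k → y ≠ r → OffAt p s₀ ρ r y ((w y : ℤ) : ℝ)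

lemma off_step {p : ℕ → M} (hp : IsPath k p) {s₀ : State M k} {ρ : List M} {r q : ℕ}
    {w w' : ℕ → ℤ} (h : Off p s₀ ρ r w) (hu : Upd k w r q w') (hr : r ≤ k) (hq : q ≤ k)
    (hqr : q ≠ r) : Off p s₀ (ρ ++ [p q]) q w' := by
  intro y hy hyq
  by_cases hyr : y = r
  · subst hyr
    obtain ⟨z, hz, hzr, hzq, he⟩ := hu.ex
    have := offAt_move hp.inj (h z hz hzr) hq hr (Ne.symm hzq) hzr hqr
    rw [hp y z hr hz, dz_comm y z] at this
    rw [he]
    push_cast
    exact this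
  · rw [hu.same y hyr]
    exact offAt_same (h y hy hyr) hq (Ne.symm hyq)

/-- The state of the play between two rounds. -/
structure Play {s₀ : State M k} (A : OnlineAlg s₀) (p : ℕ → M) (ρ : List M) (r h : ℕ)
    (L : Fin k → ℕ) (cL K₀ K₁ : ℝ) (w : ℕ → ℤ) : Prop where
  on : OnInv A p ρ r h L cL K₀
  off : Off p s₀ ρ r w
  good : Good k w r
  bound : ((SS k w r : ℤ) : ℝ) + ((dz r h : ℤ) : ℝ) ≤ cL + K₁

lemma round {s₀ : State M k} {A : OnlineAlg s₀} {p : ℕ → M} (hk : 3 ≤ k) (hp : IsPath k p)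
    {ρ : List M} {r h : ℕ} {L : Fin k → ℕ} {cL K₀ K₁ : ℝ} {w : ℕ → ℤ}
    (hP : Play A p ρ r h L cL K₀ K₁ w) :
    ∃ ρ' r' h' L' cL' w', cL + 1 ≤ cL' ∧ Play A p ρ' r' h' L' cL' K₀ K₁ w' := by
  have hr := hP.on.r_le
  have hh := hP.on.h_le
  have hrh := hP.on.ne
  have fin : ∀ {ρ₁ : List M} {r₁ : ℕ} {L₁ : Fin k → ℕ} {w₂ : ℕ → ℤ},
      OnInv A p ρ₁ r₁ h L₁ cL K₀ → Off p s₀ (ρ₁ ++ [p h]) h w₂ → Good k w₂ h →
      SS k w₂ h ≤ SS k w r + dz r h →
      ∃ ρ' r' h' L' cL' w', cL + 1 ≤ cL' ∧ Play A p ρ' r' h' L' cL' K₀ K₁ w' := by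
    intro ρ₁ r₁ L₁ w₂ h1 h2 h3 h4
    obtain ⟨L', x, hx, h5⟩ := onInv_hole h1
    have hxk := h5.h_le
    refine ⟨ρ₁ ++ [p h], h, x, L', cL + dist (p h) (p x), w₂, ?_, h5, h2, h3, ?_⟩
    · rw [hp h x hh hxk]
      have := dz_pos (Ne.symm hx)
      have : (1 : ℝ) ≤ ((dz h x : ℤ) : ℝ) := by exact_mod_cast this
      linarith
    · rw [hp h x hh hxk]
      have b := hP.bound
      have : ((SS k w₂ h : ℤ) : ℝ) ≤ ((SS k w r : ℤ) : ℝ) + ((dz r h : ℤ) : ℝ) := by
        exact_mod_cast h4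
      linarith
  rcases adversary hk hP.good hr hh (Ne.symm hrh) with ⟨w', hw', hS⟩ |
    ⟨q, w₁, w₂, hq, hqr, hqh, hw₁, hw₂, hS⟩
  · exact fin hP.on (off_step hp hP.off hw' hr hh (Ne.symm hrh)) hw'.good hS
  · obtain ⟨L₁, hL₁⟩ := onInv_covered hP.on hq hqh
    have o1 := off_step hp hP.off hw₁ hr hq hqr
    have o2 := off_step hp o1 hw₂ hq hh (Ne.symm hqh)
    exact fin hL₁ o2 hw₂.good hS

/-- The initial position of the play. -/
lemma start {s₀ : State M k} (A : OnlineAlg s₀) {p : ℕ → M} (hk : 3 ≤ k) :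
    ∃ ρ r h L K₀ K₁ w, Play A p ρ r h L 0 K₀ K₁ w := by
  classical
  have h0 : 0 < k := by omega
  set z : Fin k := ⟨0, h0⟩ with hz
  set s := A.state ([] ++ [p 0]) with hs
  have hserv := A.serves [] (p 0)
  set L : Fin k → ℕ := fun j => (Equiv.swap s.frozen z j).val with hL
  -- the offline start
  obtain ⟨g, hg⟩ : ∃ g : Fin k, g ≠ s₀.frozen := by
    by_cases h : s₀.frozen = z
    · refine ⟨⟨1, by omega⟩, ?_⟩
      rw [h, hz]
      intro hc
      have := congrArg Fin.val hc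
      simp at this
    · exact ⟨z, fun hc => h hc.symm⟩
  set s₁ : State M k := ⟨Function.update s₀.pos g (p 0), g⟩ with hs₁
  have hserv₁ : Serves s₀ (p 0) s₁ := by
    refine ⟨?_, ?_⟩
    · show Function.update s₀.pos g (p 0) s₀.frozen = s₀.pos s₀.frozen
      rw [Function.update_of_ne (Ne.symm hg)]
    · show Function.update s₀.pos g (p 0) g = p 0
      rw [Function.update_self]
  have hfeas : Feas s₀ ([] ++ [p 0]) s₁ (0 + moveCost s₀ s₁) := feas_append (feas_nil s₀) hserv₁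
  set e : ℕ → ℕ → ℕ := fun y m => if m < y then m else m + 1 with he
  set T : ℕ → Fin k → M := fun y j => p (e y (Equiv.swap g z j).val) with hT
  set cost : ℕ → ℝ := fun y => 0 + moveCost s₀ s₁ + ∑ j, dist (s₁.pos j) (T y j) with hcost
  have hcost0 : ∀ y, 0 ≤ cost y := by
    intro y
    have h1 := moveCost_nonneg s₀ s₁
    have h2 : 0 ≤ ∑ j, dist (s₁.pos j) (T y j) := sum_nonneg (fun _ _ => dist_nonneg)
    simp only [hcost]
    linarith
  obtain ⟨B, hB⟩ := exists_nat_ge (∑ y ∈ range (k + 1), cost y)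
  set w : ℕ → ℤ := fun y => (B : ℤ) + y with hw
  refine ⟨[] ++ [p 0], 0, k, L, ∑ j, dist (s.pos j) (p (L j)),
    ((SS k w 0 : ℤ) : ℝ) + ((dz 0 k : ℤ) : ℝ), w, ?_, ?_, ?_, ?_⟩
  · refine ⟨?_, ?_, ?_, ?_, le_refl _, Nat.zero_le _, ?_, hserv.2, ?_⟩
    · intro a b hab
      exact (Equiv.swap s.frozen z).injective (Fin.ext hab)
    · intro j
      exact (Equiv.swap s.frozen z j).isLt.le
    · intro j
      exact (Equiv.swap s.frozen z j).isLt.ne
    · intro y hy hyk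
      refine ⟨Equiv.swap s.frozen z ⟨y, by omega⟩, ?_⟩
      simp [hL]
    · show (Equiv.swap s.frozen z s.frozen).val = 0
      rw [Equiv.swap_apply_left]
    · have := cost_nonneg A ([] ++ [p 0])
      show 0 + ∑ j, dist (s.pos j) (p (L j)) ≤ _
      linarith
  · intro y hy hy0
    refine ⟨s₁, 0 + moveCost s₀ s₁, T y, hfeas, hserv₁.2, ?_, ?_, ?_⟩
    · show p (e y (Equiv.swap g z g).val) = p 0
      rw [Equiv.swap_apply_left, hz]
      simp only [he]
      rw [if_pos (by omega)]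
    · intro x hx hxy
      have hx' : (if x < y then x else x - 1) < k := by
        split_ifs <;> omega
      refine ⟨Equiv.swap g z ⟨if x < y then x else x - 1, hx'⟩, ?_⟩
      simp only [hT, Equiv.swap_apply_self, he]
      congr 1
      split_ifs <;> omega
    · have h1 : cost y ≤ ∑ y ∈ range (k + 1), cost y :=
        single_le_sum (fun i _ => hcost0 i) (mem_range.mpr (by omega))
      have h2 : (0 : ℝ) ≤ (y : ℝ) := Nat.cast_nonneg y
      simp only [hw]
      push_cast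
      have h3 : cost y = 0 + moveCost s₀ s₁ + ∑ j, dist (s₁.pos j) (T y j) := rfl
      linarith
  · intro y x _ _ _ _
    simp only [hw]
    unfold dz
    constructor <;> omega
  · linarith

lemma play_all {s₀ : State M k} (A : OnlineAlg s₀) {p : ℕ → M} (hk : 3 ≤ k) (hp : IsPath k p) :
    ∃ K₀ K₁ : ℝ, ∀ n : ℕ, ∃ ρ r h L cL w, (n : ℝ) ≤ cL ∧ Play A p ρ r h L cL K₀ K₁ w := by
  obtain ⟨ρ₀, r₀, h₀, L₀, K₀, K₁, w₀, hP⟩ := start A (p := p) hk
  refine ⟨K₀, K₁, ?_⟩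
  intro n
  induction n with
  | zero => exact ⟨ρ₀, r₀, h₀, L₀, 0, w₀, by simp, hP⟩
  | succ n ih =>
    obtain ⟨ρ, r, h, L, cL, w, hn, hP'⟩ := ih
    obtain ⟨ρ', r', h', L', cL', w', hc, hP''⟩ := round hk hp hP'
    refine ⟨ρ', r', h', L', cL', w', ?_, hP''⟩
    push_cast
    linarith

/-- `k` times the optimal cost is at most the sum of the offline costs. -/
lemma opt_le_SS {s₀ : State M k} {p : ℕ → M} {ρ : List M} {r : ℕ} {w : ℕ → ℤ}
    (h : Off p s₀ ρ r w) (hr : r ≤ k) : (k : ℝ) * opt s₀ ρ ≤ ((SS k w r : ℤ) : ℝ) := by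
  have h1 : ∀ y ∈ (range (k + 1)).erase r, opt s₀ ρ ≤ ((w y : ℤ) : ℝ) := by
    intro y hy
    rw [mem_erase, mem_range] at hy
    obtain ⟨s, c, T, hf, -, -, -, hle⟩ := h y (by omega) hy.1
    have h2 := opt_le hf
    have h3 : 0 ≤ ∑ j, dist (s.pos j) (T j) := sum_nonneg (fun _ _ => dist_nonneg)
    linarith
  have h2 := card_nsmul_le_sum _ _ _ h1
  rw [card_erase_of_mem (mem_range.mpr (by omega)), card_range, nsmul_eq_mul] at h2
  have h3 : ((SS k w r : ℤ) : ℝ) = ∑ y ∈ (range (k + 1)).erase r, ((w y : ℤ) : ℝ) := by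
    unfold SS
    rw [← add_sum_erase _ _ (mem_range.mpr (by omega : r < k + 1))]
    push_cast
    ring
  rw [h3]
  simpa using h2

/-- No online algorithm is `C`-competitive with `C < k`. -/
theorem not_competitive {p : ℕ → M} (hk : 3 ≤ k) (hp : IsPath k p) {s₀ : State M k}
    (A : OnlineAlg s₀) {C : ℝ} (hC : C < k) : ¬ A.Competitive C := by
  rintro ⟨K, hK⟩
  obtain ⟨K₀, K₁, hall⟩ := play_all A hk hp
  have hk0 : (0 : ℝ) < k := by exact_mod_cast (by omega : 0 < k)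
  set D := max C 0 with hD
  have hD0 : 0 ≤ D := le_max_right _ _
  have hDk : D < k := max_lt hC hk0
  -- the bound for the cost
  have key : ∀ n : ℕ, ((k : ℝ) - D) * ((n : ℝ) - K₀) ≤ D * (K₀ + K₁) + k * K := by
    intro n
    obtain ⟨ρ, r, h, L, cL, w, hn, hP⟩ := hall n
    have h1 := opt_le_SS hP.off hP.on.r_le
    have h2 := hP.bound
    have h3 := hP.on.cost
    have h4 : 0 ≤ ∑ j, dist ((A.state ρ).pos j) (p (L j)) := sum_nonneg (fun _ _ => dist_nonneg)
    have h5 : (0 : ℝ) ≤ ((dz r h : ℤ) : ℝ) := by exact_mod_cast dz_nonneg r h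
    have h6 := hK ρ
    have h7 := opt_nonneg s₀ ρ
    have h8 : C * opt s₀ ρ ≤ D * opt s₀ ρ := mul_le_mul_of_nonneg_right (le_max_left _ _) h7
    have h9 : (k : ℝ) * opt s₀ ρ ≤ A.cost ρ + K₀ + K₁ := by linarith
    have h10 : A.cost ρ ≤ D * opt s₀ ρ + K := by linarith
    have h11 : (k : ℝ) * A.cost ρ ≤ D * (A.cost ρ + K₀ + K₁) + k * K := by
      calc (k : ℝ) * A.cost ρ ≤ k * (D * opt s₀ ρ + K) := mul_le_mul_of_nonneg_left h10 hk0.le
        _ = D * (k * opt s₀ ρ) + k * K := by ring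
        _ ≤ D * (A.cost ρ + K₀ + K₁) + k * K := by
            have := mul_le_mul_of_nonneg_left h9 hD0
            linarith
    have h12 : (n : ℝ) - K₀ ≤ A.cost ρ := by linarith
    have h13 := mul_le_mul_of_nonneg_left h12 (by linarith : (0 : ℝ) ≤ k - D)
    linarith
  obtain ⟨n, hn⟩ := exists_nat_gt ((D * (K₀ + K₁) + k * K) / (k - D) + K₀)
  have h1 := key n
  have h2 : (D * (K₀ + K₁) + k * K) / (k - D) < (n : ℝ) - K₀ := by linarith
  rw [div_lt_iff₀ (by linarith)] at h2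
  linarith

/-- The lower bound. -/
theorem lower_bound {p : ℕ → M} (hk : 3 ≤ k) (hp : IsPath k p) (s₀ : State M k) :
    (k : EReal) ≤ competitiveness s₀ := by
  unfold competitiveness
  refine le_iInf₂ ?_
  rintro C ⟨A, hA⟩
  by_contra hc
  rw [not_le] at hc
  have hC : C < k := by
    have : ((C : ℝ) : EReal) < (((k : ℕ) : ℝ) : EReal) := by
      simpa using hc
    exact_mod_cast this
  exact not_competitive hk hp A hC hA

end Q171KS
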