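import Mathlib

/-!
# Combinatorics of the offline costs on a path
-/

namespace Q171KS

open Finset

/-- Distance on the integer line. -/
def dz (y z : ℕ) : ℤ := max ((y : ℤ) - z) ((z : ℤ) - y)

/-- `w` (on the points `≤ k` other than `r`) is 1-Lipschitz and `w y + y` has constant parity. -/
def Good (k : ℕ) (w : ℕ → ℤ) (r : ℕ) : Prop :=
  ∀ y z, y ≤ k → z ≤ k → y ≠ r → z ≠ r → w y - w z ≤ dz y z ∧ (2 : ℤ) ∣ (w y + y - w z - z)

/-- The update of `w` when the last request was `r` and `q` is requested. -/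
structure Upd (k : ℕ) (w : ℕ → ℤ) (r q : ℕ) (w' : ℕ → ℤ) : Prop where
  good : Good k w' q
  same : ∀ y, y ≠ r → w' y = w y
  le : ∀ z, z ≤ k → z ≠ r → z ≠ q → w' r ≤ w z + dz z r
  ex : ∃ z, z ≤ k ∧ z ≠ r ∧ z ≠ q ∧ w' r = w z + dz z r

/-- The sum of the offline costs. -/
def SS (k : ℕ) (w : ℕ → ℤ) (r : ℕ) : ℤ := ∑ y ∈ range (k + 1), w y - w r

lemma exists_upd {k : ℕ} (hk : 2 ≤ k) {w : ℕ → ℤ} {r q : ℕ} (hg : Good k w r) (hr : r ≤ k)
    (hqr : q ≠ r) : ∃ w', Upd k w r q w' := by
  classical
  set s : Finset ℕ := (range (k + 1)).filter (fun z => z ≠ r ∧ z ≠ q) with hs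
  have hne : s.Nonempty := by
    by_contra hc
    rw [not_nonempty_iff_eq_empty] at hc
    have h0 : 0 ∉ s := by rw [hc]; simp
    have h1 : 1 ∉ s := by rw [hc]; simp
    have h2 : 2 ∉ s := by rw [hc]; simp
    rw [hs] at h0 h1 h2
    simp only [mem_filter, mem_range, not_and, not_not] at h0 h1 h2
    omega
  obtain ⟨z, hz, hmin⟩ := s.exists_min_image (fun z => w z + dz z r) hne
  rw [hs] at hz
  simp only [mem_filter, mem_range] at hz
  have hmin' : ∀ y, y ≤ k → y ≠ r → y ≠ q → w z + dz z r ≤ w y + dz y r := by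
    intro y h1 h2 h3
    apply hmin
    rw [hs]
    simp only [mem_filter, mem_range]
    exact ⟨by omega, h2, h3⟩
  refine ⟨Function.update w r (w z + dz z r), ?_, ?_, ?_, ?_⟩
  · intro y x hy hx hyq hxq
    by_cases h1 : y = r
    · subst h1
      by_cases h2 : x = y
      · subst h2
        simp [dz]
      · rw [Function.update_self, Function.update_of_ne h2]
        have a1 := hmin' x hx h2 hxq
        have a2 := (hg z x (by omega) hx hz.2.1 h2)
        have a3 := a2.2
        unfold dz at *
        constructor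
        · omega
        · omega
    · by_cases h2 : x = r
      · subst h2
        rw [Function.update_self, Function.update_of_ne h1]
        have a1 := hmin' y hy h1 hyq
        have a2 := (hg y z hy (by omega) h1 hz.2.1)
        have a3 := a2.2
        have a4 := a2.1
        unfold dz at *
        constructor
        · omega
        · omega
      · rw [Function.update_of_ne h1, Function.update_of_ne h2]
        exact hg y x hy hx h1 h2
  · intro y hy
    rw [Function.update_of_ne hy]
  · intro y hy h2 h3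
    rw [Function.update_self]
    exact hmin' y hy h2 h3
  · exact ⟨z, by omega, hz.2.1, hz.2.2, by rw [Function.update_self]⟩

lemma SS_upd {k : ℕ} {w w' : ℕ → ℤ} {r q : ℕ} (h : Upd k w r q w') (hr : r ≤ k)
    (hqr : q ≠ r) : SS k w' q = SS k w r + w' r - w q := by
  unfold SS
  rw [h.same q hqr]
  have e : ∑ y ∈ range (k + 1), w' y - ∑ y ∈ range (k + 1), w y = w' r - w r := by
    rw [← sum_sub_distrib]
    rw [sum_eq_single r]
    · intro b _ hb
      rw [h.same b hb]
      ring
    · intro hc
      exact absurd (mem_range.mpr (by omega)) hc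
  linarith

/-- The adversary: after the hole of the online algorithm has moved from `r` to `x`, at most two
requests, the last one at `x`, increase the sum of the offline costs by at most `|r - x|`. -/
lemma adversary {k : ℕ} (hk : 3 ≤ k) {w : ℕ → ℤ} {r x : ℕ} (hg : Good k w r) (hr : r ≤ k)
    (hx : x ≤ k) (hxr : x ≠ r) :
    (∃ w', Upd k w r x w' ∧ SS k w' x ≤ SS k w r + dz r x) ∨
    (∃ q w₁ w₂, q ≤ k ∧ q ≠ r ∧ q ≠ x ∧ Upd k w r q w₁ ∧ Upd k w₁ q x w₂ ∧
      SS k w₂ x ≤ SS k w r + dz r x) := by
  obtain ⟨w', hw'⟩ := exists_upd (by omega) hg hr hxr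
  have hS := SS_upd hw' hr hxr
  by_cases h1 : ∃ z, z ≤ k ∧ z ≠ r ∧ z ≠ x ∧ w z + dz z r ≤ w x + dz r x
  · left
    obtain ⟨z, hz, hzr, hzx, hle⟩ := h1
    refine ⟨w', hw', ?_⟩
    have := hw'.le z hz hzr hzx
    omega
  · right
    push Not at h1
    -- the points are adjacent
    have hadj : dz r x = 1 := by
      by_contra hne
      have hz : ∃ z, z ≤ k ∧ z ≠ r ∧ z ≠ x ∧ dz z r + dz x z = dz r x := by
        rcases Nat.lt_or_gt_of_ne hxr with h | h
        · refine ⟨x + 1, ?_, ?_, ?_, ?_⟩ <;> unfold dz at * <;> omega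
        · refine ⟨r + 1, ?_, ?_, ?_, ?_⟩ <;> unfold dz at * <;> omega
      obtain ⟨z, hz, hzr, hzx, hd⟩ := hz
      have a1 := h1 z hz hzr hzx
      have a2 := (hg z x hz hx hzr hxr).1
      unfold dz at *
      omega
    have h3 : ∀ z, z ≤ k → z ≠ r → z ≠ x → w x + 3 ≤ w z + dz z r := by
      intro z hz hzr hzx
      have a1 := h1 z hz hzr hzx
      have a2 := (hg z x hz hx hzr hxr).2
      unfold dz at *
      omega
    by_cases hy : ∃ y, y ≤ k ∧ dz y r = 1 ∧ y ≠ x
    · obtain ⟨y, hyk, hyr, hyx⟩ := hy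
      have hyr' : y ≠ r := by
        intro h; subst h; unfold dz at hyr; omega
      obtain ⟨w₁, hw₁⟩ := exists_upd (by omega) hg hr hyr'
      obtain ⟨w₂, hw₂⟩ := exists_upd (by omega) hw₁.good hyk (Ne.symm hyx)
      refine ⟨y, w₁, w₂, hyk, hyr', hyx, hw₁, hw₂, ?_⟩
      have s1 := SS_upd hw₁ hr hyr'
      have s2 := SS_upd hw₂ hyk (Ne.symm hyx)
      have b1 := hw₁.le x hx hxr (Ne.symm hyx)
      have b2 := hw₂.le r hr (Ne.symm hyr') (Ne.symm hxr)
      have b3 := hw₁.same x hxr
      have b4 := h3 y hyk hyr' hyx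
      have e1 : dz x r = dz r x := by unfold dz; omega
      have e2 : dz r y = dz y r := by unfold dz; omega
      omega
    · push Not at hy
      -- `r` is an end point
      have huv : ∃ u v, u ≤ k ∧ v ≤ k ∧ dz u r = 2 ∧ dz v r = 3 ∧ dz u x = 1 ∧ dz v x = 2 ∧
          dz u v = 1 ∧ dz v u = 1 ∧ (2 : ℤ) ∣ ((v : ℤ) - x) := by
        rcases Nat.lt_or_gt_of_ne hxr with h | h
        · have hrk : ¬ r + 1 ≤ k := by
            intro hc
            have := hy (r + 1) hc (by unfold dz; omega)
            omega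
          have hxe : x + 1 = r := by unfold dz at hadj; omega
          refine ⟨r - 2, r - 3, by omega, by omega, ?_, ?_, ?_, ?_, ?_, ?_, by omega⟩ <;>
            unfold dz <;> omega
        · have hrk : r = 0 := by
            by_contra hc
            have := hy (r - 1) (by omega) (by unfold dz; omega)
            omega
          have hxe : x = 1 := by unfold dz at hadj; omega
          refine ⟨2, 3, by omega, by omega, ?_, ?_, ?_, ?_, ?_, ?_, by omega⟩ <;>
            unfold dz <;> omega
      obtain ⟨u, v, huk, hvk, hur, hvr, hux, hvx, huv, hvu, hpar⟩ := huv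
      have hur' : u ≠ r := by intro h; subst h; unfold dz at hur; omega
      have hvr' : v ≠ r := by intro h; subst h; unfold dz at hvr; omega
      have hux' : u ≠ x := by intro h; subst h; unfold dz at hux; omega
      have hvx' : v ≠ x := by intro h; subst h; unfold dz at hvx; omega
      have huv' : u ≠ v := by intro h; subst h; unfold dz at huv; omega
      have c1 := h3 u huk hur' hux'
      have c2 := h3 v hvk hvr' hvx'
      have c3 := (hg u x huk hx hur' hxr).1
      have c4 := (hg v x hvk hx hvr' hxr).2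
      have e1 : dz x r = 1 := by unfold dz at *; omega
      by_cases hcase : w v = w x
      · -- request `u`, then `x`
        obtain ⟨w₁, hw₁⟩ := exists_upd (by omega) hg hr hur'
        obtain ⟨w₂, hw₂⟩ := exists_upd (by omega) hw₁.good huk (Ne.symm hux')
        refine ⟨u, w₁, w₂, huk, hur', hux', hw₁, hw₂, ?_⟩
        have s1 := SS_upd hw₁ hr hur'
        have s2 := SS_upd hw₂ huk (Ne.symm hux')
        have b1 := hw₁.le x hx hxr (Ne.symm hux')
        have b2 := hw₂.le v hvk (Ne.symm huv') hvx'
        have b3 := hw₁.same x hxr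
        have b4 := hw₁.same v hvr'
        omega
      · -- request `v`, then `x`
        obtain ⟨w₁, hw₁⟩ := exists_upd (by omega) hg hr hvr'
        obtain ⟨w₂, hw₂⟩ := exists_upd (by omega) hw₁.good hvk (Ne.symm hvx')
        refine ⟨v, w₁, w₂, hvk, hvr', hvx', hw₁, hw₂, ?_⟩
        have s1 := SS_upd hw₁ hr hvr'
        have s2 := SS_upd hw₂ hvk (Ne.symm hvx')
        have b1 := hw₁.le x hx hxr (Ne.symm hvx')
        have b2 := hw₂.le u huk huv' hux'
        have b3 := hw₁.same x hxr
        have b4 := hw₁.same u hur'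
        omega

end Q171KS
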