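import Pool.Agent.Q171.KS.Model
import Pool.Agent.Q171.KS.Work

/-!
# Offline schedules and the lazy simulation of an online algorithm
-/

namespace Q171KS

open Finset

variable {M : Type*} [PseudoMetricSpace M] {k : ℕ}

/-- There is a schedule for `ρ` with final state `s` and cost `c`. -/
def Feas (s₀ : State M k) (ρ : List M) (s : State M k) (c : ℝ) : Prop :=
  ∃ σ : ℕ → State M k, IsSchedule s₀ ρ σ ∧ σ ρ.length = s ∧
    c = ∑ t ∈ range ρ.length, moveCost (σ t) (σ (t + 1))

lemma moveCost_nonneg (s s' : State M k) : 0 ≤ moveCost s s' :=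
  sum_nonneg (fun _ _ => dist_nonneg)

lemma feas_nil (s₀ : State M k) : Feas s₀ [] s₀ 0 :=
  ⟨fun _ => s₀, ⟨rfl, fun t h => absurd h (by simp)⟩, rfl, by simp⟩

lemma feas_append {s₀ : State M k} {ρ : List M} {s : State M k} {c : ℝ} (h : Feas s₀ ρ s c)
    {r : M} {s' : State M k} (hs : Serves s r s') :
    Feas s₀ (ρ ++ [r]) s' (c + moveCost s s') := by
  obtain ⟨σ, ⟨h0, h1⟩, h2, h3⟩ := h
  refine ⟨fun t => if t ≤ ρ.length then σ t else s', ⟨?_, ?_⟩, ?_, ?_⟩
  · simp [h0]
  · intro t ht
    rw [List.length_append, List.length_singleton] at ht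
    dsimp only
    rcases Nat.lt_or_ge t ρ.length with h | h
    · rw [if_pos (by omega), if_pos (by omega), List.getElem_append_left h]
      exact h1 t h
    · have ht' : t = ρ.length := by omega
      subst ht'
      rw [if_pos (by omega), if_neg (by omega), List.getElem_append_right (le_refl _)]
      simp only [Nat.sub_self, List.getElem_cons_zero]
      rw [h2]
      exact hs
  · simp
  · rw [List.length_append, List.length_singleton, sum_range_succ]
    dsimp only
    rw [if_pos (le_refl _), if_neg (by omega), h2, h3]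
    congr 1
    apply sum_congr rfl
    intro t ht
    rw [mem_range] at ht
    rw [if_pos (by omega), if_pos (by omega)]

lemma opt_le {s₀ : State M k} {ρ : List M} {s : State M k} {c : ℝ} (h : Feas s₀ ρ s c) :
    opt s₀ ρ ≤ c := by
  obtain ⟨σ, h1, h2, h3⟩ := h
  apply csInf_le
  · refine ⟨0, ?_⟩
    rintro x ⟨τ, -, rfl⟩
    exact sum_nonneg (fun _ _ => moveCost_nonneg _ _)
  · exact ⟨σ, h1, h3⟩

lemma opt_nonneg (s₀ : State M k) (ρ : List M) : 0 ≤ opt s₀ ρ := by
  apply Real.sInf_nonneg
  rintro x ⟨τ, -, rfl⟩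
  exact sum_nonneg (fun _ _ => moveCost_nonneg _ _)

lemma cost_nonneg {s₀ : State M k} (A : OnlineAlg s₀) (ρ : List M) : 0 ≤ A.cost ρ :=
  sum_nonneg (fun _ _ => moveCost_nonneg _ _)

lemma cost_append {s₀ : State M k} (A : OnlineAlg s₀) (ρ : List M) (r : M) :
    A.cost (ρ ++ [r]) = A.cost ρ + moveCost (A.state ρ) (A.state (ρ ++ [r])) := by
  unfold OnlineAlg.cost
  rw [List.length_append, List.length_singleton, sum_range_succ]
  congr 1
  · apply sum_congr rfl
    intro t ht
    rw [mem_range] at ht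
    rw [List.take_append_of_le_length (by omega), List.take_append_of_le_length (by omega)]
  · rw [List.take_append_of_le_length (le_refl _), List.take_length]
    congr 2
    rw [List.take_of_length_le]
    simp

/-- Offline: at cost at most `b` one can serve `ρ` and be in a position to leave only the point
`x` uncovered. -/
def OffAt (p : ℕ → M) (s₀ : State M k) (ρ : List M) (r x : ℕ) (b : ℝ) : Prop :=
  ∃ (s : State M k) (c : ℝ) (T : Fin k → M), Feas s₀ ρ s c ∧ s.pos s.frozen = p r ∧
    T s.frozen = p r ∧ (∀ y, y ≤ k → y ≠ x → ∃ j, T j = p y) ∧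
    c + ∑ j, dist (s.pos j) (T j) ≤ b

lemma offAt_same {p : ℕ → M} {s₀ : State M k} {ρ : List M} {r x : ℕ} {b : ℝ}
    (h : OffAt p s₀ ρ r x b) {q : ℕ} (hq : q ≤ k) (hqx : q ≠ x) :
    OffAt p s₀ (ρ ++ [p q]) q x b := by
  obtain ⟨s, c, T, h1, h2, h3, h4, h5⟩ := h
  obtain ⟨g, hg⟩ := h4 q hq hqx
  refine ⟨⟨T, g⟩, c + ∑ j, dist (s.pos j) (T j), T, ?_, hg, hg, h4, ?_⟩
  · exact feas_append h1 ⟨h3.trans h2.symm, hg⟩
  · simpa using h5

lemma offAt_move {p : ℕ → M} (hinj : ∀ a b, a ≤ k → b ≤ k → p a = p b → a = b)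
    {s₀ : State M k} {ρ : List M} {r z : ℕ} {b : ℝ}
    (h : OffAt p s₀ ρ r z b) {q : ℕ} (hq : q ≤ k) (hr : r ≤ k) (hqz : q ≠ z) (hzr : z ≠ r)
    (hqr : q ≠ r) :
    OffAt p s₀ (ρ ++ [p q]) q r (b + dist (p r) (p z)) := by
  classical
  obtain ⟨s, c, T, h1, h2, h3, h4, h5⟩ := h
  obtain ⟨g, hg⟩ := h4 q hq hqz
  obtain ⟨j, hj⟩ := h4 r hr (Ne.symm hzr)
  have hjg : g ≠ j := by
    rintro rfl
    exact hqr (hinj q r hq hr (hg.symm.trans hj))
  refine ⟨⟨T, g⟩, c + ∑ j, dist (s.pos j) (T j), Function.update T j (p z), ?_, hg, ?_, ?_, ?_⟩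
  · exact feas_append h1 ⟨h3.trans h2.symm, hg⟩
  · show Function.update T j (p z) g = p q
    rw [Function.update_of_ne hjg, hg]
  · intro y hy hyr
    by_cases hyz : y = z
    · exact ⟨j, by rw [hyz, Function.update_self]⟩
    · obtain ⟨i, hi⟩ := h4 y hy hyz
      have hij : i ≠ j := by
        rintro rfl
        exact hyr (hinj y r hy hr (hi.symm.trans hj))
      exact ⟨i, by rw [Function.update_of_ne hij, hi]⟩
  · show c + ∑ j, dist (s.pos j) (T j) + ∑ m, dist (T m) (Function.update T j (p z) m) ≤ _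
    have e : ∑ m, dist (T m) (Function.update T j (p z) m) = dist (p r) (p z) := by
      rw [sum_eq_single j]
      · rw [Function.update_self, hj]
      · intro m _ hm
        rw [Function.update_of_ne hm, dist_self]
      · intro hc
        exact absurd (mem_univ j) hc
    rw [e]
    linarith

/-- The lazy simulation of an online algorithm: a configuration `L` which covers all the points
`≤ k` except the hole `h`. -/
structure OnInv {s₀ : State M k} (A : OnlineAlg s₀) (p : ℕ → M) (ρ : List M) (r h : ℕ)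
    (L : Fin k → ℕ) (cL K₀ : ℝ) : Prop where
  inj : Function.Injective L
  le : ∀ j, L j ≤ k
  hole : ∀ j, L j ≠ h
  cover : ∀ y, y ≤ k → y ≠ h → ∃ j, L j = y
  h_le : h ≤ k
  r_le : r ≤ k
  fr : L (A.state ρ).frozen = r
  pos : (A.state ρ).pos (A.state ρ).frozen = p r
  cost : cL + ∑ j, dist ((A.state ρ).pos j) (p (L j)) ≤ A.cost ρ + K₀

lemma OnInv.ne {s₀ : State M k} {A : OnlineAlg s₀} {p : ℕ → M} {ρ : List M} {r h : ℕ}
    {L : Fin k → ℕ} {cL K₀ : ℝ} (hI : OnInv A p ρ r h L cL K₀) : r ≠ h := by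
  rw [← hI.fr]; exact hI.hole _

/-- A request at a covered point. -/
lemma onInv_covered {s₀ : State M k} {A : OnlineAlg s₀} {p : ℕ → M} {ρ : List M} {r h : ℕ}
    {L : Fin k → ℕ} {cL K₀ : ℝ} (hI : OnInv A p ρ r h L cL K₀) {q : ℕ} (hq : q ≤ k)
    (hqh : q ≠ h) : ∃ L', OnInv A p (ρ ++ [p q]) q h L' cL K₀ := by
  classical
  obtain ⟨j, hj⟩ := hI.cover q hq hqh
  obtain ⟨hs1, hs2⟩ := A.serves ρ (p q)
  set s := A.state ρ with hs
  set s' := A.state (ρ ++ [p q]) with hs'
  set i := s'.frozen with hi
  have hstep : ∑ m, dist (s'.pos m) (p (L m)) ≤ moveCost s s' + ∑ m, dist (s.pos m) (p (L m)) := by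
    unfold moveCost
    rw [← sum_add_distrib]
    apply sum_le_sum
    intro m _
    have := dist_triangle (s'.pos m) (s.pos m) (p (L m))
    rw [dist_comm (s'.pos m) (s.pos m)] at this
    exact this
  have hswap : ∑ m, dist (s'.pos m) (p (L (Equiv.swap i j m)))
      ≤ ∑ m, dist (s'.pos m) (p (L m)) := by
    by_cases hij : i = j
    · rw [hij]; simp
    · rw [← sub_nonpos, ← sum_sub_distrib]
      rw [sum_eq_add i j hij]
      · rw [Equiv.swap_apply_left, Equiv.swap_apply_right, hj, hs2, dist_self]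
        have h1 := dist_triangle (s'.pos j) (p q) (p (L i))
        linarith
      · rintro c - ⟨hci, hcj⟩
        rw [Equiv.swap_apply_of_ne_of_ne hci hcj, sub_self]
      · intro hc; exact absurd (mem_univ _) hc
      · intro hc; exact absurd (mem_univ _) hc
  refine ⟨fun m => L (Equiv.swap i j m), ?_, ?_, ?_, ?_, hI.h_le, hq, ?_, hs2, ?_⟩
  · exact hI.inj.comp (Equiv.swap i j).injective
  · intro m; exact hI.le _
  · intro m; exact hI.hole _
  · intro y hy hyh
    obtain ⟨m, hm⟩ := hI.cover y hy hyh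
    exact ⟨Equiv.swap i j m, by simpa using hm⟩
  · show L (Equiv.swap i j i) = q
    rw [Equiv.swap_apply_left, hj]
  · rw [cost_append]
    have := hI.cost
    linarith

/-- A request at the hole. -/
lemma onInv_hole {s₀ : State M k} {A : OnlineAlg s₀} {p : ℕ → M} {ρ : List M} {r h : ℕ}
    {L : Fin k → ℕ} {cL K₀ : ℝ} (hI : OnInv A p ρ r h L cL K₀) :
    ∃ L' x, x ≠ h ∧ OnInv A p (ρ ++ [p h]) h x L' (cL + dist (p h) (p x)) K₀ := by
  classical
  obtain ⟨hs1, hs2⟩ := A.serves ρ (p h)
  set s := A.state ρ with hs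
  set s' := A.state (ρ ++ [p h]) with hs'
  set i := s'.frozen with hi
  refine ⟨Function.update L i h, L i, hI.hole i, ?_, ?_, ?_, ?_, hI.le i, hI.h_le, ?_, hs2, ?_⟩
  · intro a b hab
    by_cases ha : a = i
    · by_cases hb : b = i
      · rw [ha, hb]
      · exfalso
        rw [ha, Function.update_self, Function.update_of_ne hb] at hab
        exact hI.hole b hab.symm
    · by_cases hb : b = i
      · exfalso
        rw [hb, Function.update_self, Function.update_of_ne ha] at hab
        exact hI.hole a hab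
      · rw [Function.update_of_ne ha, Function.update_of_ne hb] at hab
        exact hI.inj hab
  · intro m
    by_cases hm : m = i
    · rw [hm, Function.update_self]; exact hI.h_le
    · rw [Function.update_of_ne hm]; exact hI.le m
  · intro m
    by_cases hm : m = i
    · rw [hm, Function.update_self]; exact (hI.hole i).symm
    · rw [Function.update_of_ne hm]
      intro hc
      exact hm (hI.inj hc)
  · intro y hy hyx
    by_cases hyh : y = h
    · exact ⟨i, by rw [Function.update_self, hyh]⟩
    · obtain ⟨m, hm⟩ := hI.cover y hy hyh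
      have hmi : m ≠ i := by
        rintro rfl
        exact hyx hm.symm
      exact ⟨m, by rw [Function.update_of_ne hmi, hm]⟩
  · show Function.update L i h i = h
    rw [Function.update_self]
  · rw [cost_append]
    have hc := hI.cost
    unfold moveCost
    have e1 : ∑ m, dist (s'.pos m) (p (Function.update L i h m))
        = ∑ m ∈ univ.erase i, dist (s'.pos m) (p (L m)) := by
      rw [← add_sum_erase _ _ (mem_univ i), Function.update_self, hs2, dist_self, zero_add]
      apply sum_congr rfl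
      intro m hm
      rw [Function.update_of_ne (ne_of_mem_erase hm)]
    have e2 : ∑ m ∈ univ.erase i, dist (s'.pos m) (p (L m))
        ≤ ∑ m ∈ univ.erase i, (dist (s.pos m) (s'.pos m) + dist (s.pos m) (p (L m))) := by
      apply sum_le_sum
      intro m _
      have := dist_triangle (s'.pos m) (s.pos m) (p (L m))
      rw [dist_comm (s'.pos m) (s.pos m)] at this
      exact this
    have e3 : dist (p h) (p (L i)) ≤ dist (s.pos i) (s'.pos i) + dist (s.pos i) (p (L i)) := by
      rw [hs2]
      have := dist_triangle (p h) (s.pos i) (p (L i))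
      rw [dist_comm (p h) (s.pos i)] at this
      exact this
    have e4 : ∑ m, (dist (s.pos m) (s'.pos m) + dist (s.pos m) (p (L m)))
        = (dist (s.pos i) (s'.pos i) + dist (s.pos i) (p (L i)))
          + ∑ m ∈ univ.erase i, (dist (s.pos m) (s'.pos m) + dist (s.pos m) (p (L m))) :=
      (add_sum_erase _ _ (mem_univ i)).symm
    rw [sum_add_distrib] at e4
    rw [e1]
    linarith

end Q171KS
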