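import Mathlib

/-!
# The delayed k-server problem
-/

namespace Q171KS

/-- A state: the positions of the `k` servers and the server that is frozen at present. -/
structure State (M : Type*) (k : ℕ) where
  pos : Fin k → M
  frozen : Fin k

variable {M : Type*} {k : ℕ}

/-- `Serves s r s'`: in the state `s` the request `r` arrives and is served by passing to the
state `s'`: the frozen server does not move, all the others may move, afterwards the server
`s'.frozen` is at `r`, and it is frozen during the next step. -/
def Serves (s : State M k) (r : M) (s' : State M k) : Prop :=
  s'.pos s.frozen = s.pos s.frozen ∧ s'.pos s'.frozen = r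

/-- The total distance moved. -/
noncomputable def moveCost [PseudoMetricSpace M] (s s' : State M k) : ℝ :=
  ∑ i, dist (s.pos i) (s'.pos i)

/-- A deterministic online algorithm started in the state `s₀`: it assigns to every finite request
sequence (first request first) the state after the last request of the sequence has been
served. -/
structure OnlineAlg (s₀ : State M k) where
  state : List M → State M k
  init : state [] = s₀
  serves : ∀ (ρ : List M) (r : M), Serves (state ρ) r (state (ρ ++ [r]))

/-- The cost of an online algorithm on a request sequence. -/
noncomputable def OnlineAlg.cost [PseudoMetricSpace M] {s₀ : State M k} (A : OnlineAlg s₀)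
    (ρ : List M) : ℝ :=
  ∑ t ∈ Finset.range ρ.length, moveCost (A.state (ρ.take t)) (A.state (ρ.take (t + 1)))

/-- `s` is an (offline) schedule for the request sequence `ρ` from the state `s₀`. -/
def IsSchedule (s₀ : State M k) (ρ : List M) (s : ℕ → State M k) : Prop :=
  s 0 = s₀ ∧ ∀ (t : ℕ) (h : t < ρ.length), Serves (s t) ρ[t] (s (t + 1))

/-- The optimal offline cost. -/
noncomputable def opt [PseudoMetricSpace M] (s₀ : State M k) (ρ : List M) : ℝ :=
  sInf {c : ℝ | ∃ s : ℕ → State M k, IsSchedule s₀ ρ s ∧
    c = ∑ t ∈ Finset.range ρ.length, moveCost (s t) (s (t + 1))}

/-- An online algorithm is `C`-competitive. -/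
def OnlineAlg.Competitive [PseudoMetricSpace M] {s₀ : State M k} (A : OnlineAlg s₀) (C : ℝ) :
    Prop :=
  ∃ K : ℝ, ∀ ρ : List M, A.cost ρ ≤ C * opt s₀ ρ + K

/-- The competitiveness of the delayed `k`-server problem with the initial state `s₀`: the infimum
of all `C` such that some deterministic online algorithm is `C`-competitive (`⊤` if there is no
such `C`). -/
noncomputable def competitiveness [PseudoMetricSpace M] (s₀ : State M k) : EReal :=
  ⨅ (C : ℝ) (_ : ∃ A : OnlineAlg s₀, A.Competitive C), (C : EReal)

end Q171KS
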